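import Pool.Agent.W606.PS.Stm

/-! Project PS, part S_ADV. -/

set_option autoImplicit false

open Set Relation Pool.Agent.W606.PS

namespace Pool.Agent.W881.PS.Adv

theorem Cl.mono {C : ℕ → Finset ℕ} {N : ℕ} {D : Finset ℕ} {p q : ℕ} (hp : p < N) (hq : q < N)
    (h : Cl C p q) : Cl (fun p => if p = N then D else C p) p q := by
  unfold Cl at h ⊢
  have h1 : p ≠ N := by omega
  have h2 : q ≠ N := by omega
  simp only [h1, h2, if_false]
  exact h

theorem main : S_ADV := by
  intro V T _ G tv M c N U part lev C hI Om hOm Y hYO hYne D hD3 hDlt hDcl hDmem F' hF'z hLip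
    hrng hthick hReg
  classical
  obtain ⟨part', hpart'⟩ : ∃ part' : V → ℕ, part' = (fun v => @ite ℕ (v ∈ Y)
    (Classical.propDecidable (v ∈ Y)) N (part v)) := ⟨_, rfl⟩
  rw [← hpart'] at hReg ⊢
  have hp1 : ∀ v, v ∈ Y → part' v = N := by
    intro v hv; rw [hpart']; exact if_pos hv
  have hp2 : ∀ v, v ∉ Y → part' v = part v := by
    intro v hv; rw [hpart']; exact if_neg hv
  obtain ⟨C', hC'⟩ : ∃ C' : ℕ → Finset ℕ, C' = (fun p => if p = N then D else C p) := ⟨_, rfl⟩
  rw [← hC'] at hReg ⊢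
  have hC1 : C' N = D := by rw [hC']; exact if_pos rfl
  have hC2 : ∀ p, p ≠ N → C' p = C p := by
    intro p hp; rw [hC']; exact if_neg hp
  have hCl : ∀ p q, p < N → q < N → Cl C p q → Cl C' p q := by
    intro p q hp hq h
    rw [hC']; exact Cl.mono hp hq h
  -- basic facts
  have hUY : ∀ v, v ∈ U → v ∉ Y := fun v hv hY => hOm.1 (hYO hY) hv
  have hnbU : ∀ z ∈ Nb G Om, z ∈ U := by
    rintro z ⟨hz, u, hu, e⟩
    by_contra hzU
    exact hz (hOm.2.2 u hu z hzU e)
  have hnb : ∀ u ∈ Y, ∀ v ∈ U, G.Adj u v → v ∈ Nb G Om := by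
    intro u hu v hv e
    exact ⟨fun h => hOm.1 h hv, u, hYO hu, e⟩
  obtain ⟨lev', hlev'⟩ : ∃ lev' : V → ℕ, lev' = fun v => if v ∈ Y then (F' v).toNat else lev v :=
    ⟨_, rfl⟩
  have hl1 : ∀ v, v ∈ Y → ((lev' v : ℕ) : ℤ) = F' v := by
    intro v hv; rw [hlev']; simp only [hv, if_true]; exact Int.toNat_of_nonneg (hrng v).1
  have hl2 : ∀ v, v ∉ Y → lev' v = lev v := by
    intro v hv; rw [hlev']; exact if_neg hv
  have hlF : ∀ z ∈ Nb G Om, F' z = lev' z := by
    intro z hz
    rw [hl2 z (hUY z (hnbU z hz))]; exact hF'z z hz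
  refine ⟨lev', ?_, ?_, ?_, ?_, ?_, ?_, ?_, ?_, ?_⟩
  · -- part_lt
    intro v hv
    by_cases hY : v ∈ Y
    · rw [hp1 v hY]; omega
    · rw [hp2 v hY]
      have := hI.part_lt v (hv.resolve_right hY)
      omega
  · intro v hv
    by_cases hY : v ∈ Y
    · have h1 := hl1 v hY
      have h2 := (hrng v).2
      omega
    · rw [hl2 v hY]
      exact hI.lev_le v (hv.resolve_right hY)
  · intro u hu v hv e
    by_cases hY : u ∈ Y
    · have h0 := hLip u (hYO hY) v e
      rw [abs_le] at h0
      have h1 := hl1 u hY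
      by_cases hY' : v ∈ Y
      · have h2 := hl1 v hY'
        omega
      · have h2 := hlF v (hnb u hY v (hv.resolve_right hY') e)
        omega
    · by_cases hY' : v ∈ Y
      · have h0 := hLip v (hYO hY') u e.symm
        rw [abs_le] at h0
        have h1 := hl1 v hY'
        have h2 := hlF u (hnb v hY' u (hu.resolve_right hY) e.symm)
        omega
      · rw [hl2 u hY, hl2 v hY']
        exact hI.lev_adj u (hu.resolve_right hY) v (hv.resolve_right hY') e
  · -- thick
    intro p j
    by_cases hp : p = N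
    · subst hp
      refine le_trans (Set.ncard_le_ncard ?_ (Set.toFinite _)) (hthick (j : ℤ))
      rintro v ⟨hv, hvp, hvj⟩
      by_cases hY : v ∈ Y
      · refine ⟨hY, ?_⟩
        rw [← hl1 v hY, hvj]
      · exfalso
        rw [hp2 v hY] at hvp
        have := hI.part_lt v (hv.resolve_right hY)
        omega
    · refine le_trans (Set.ncard_le_ncard ?_ (Set.toFinite _)) (hI.thick p j)
      rintro v ⟨hv, hvp, hvj⟩
      by_cases hY : v ∈ Y
      · exfalso
        rw [hp1 v hY] at hvp
        exact hp hvp.symm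
      · rw [hp2 v hY] at hvp
        rw [hl2 v hY] at hvj
        exact ⟨hv.resolve_right hY, hvp, hvj⟩
  · -- C_lt
    intro p hp q hq
    by_cases h : p = N
    · subst h
      rw [hC1] at hq
      exact hDlt q hq
    · rw [hC2 p h] at hq
      exact hI.C_lt p (by omega) q hq
  · intro p hp
    by_cases h : p = N
    · subst h
      rw [hC1]; exact hD3
    · rw [hC2 p h]
      exact hI.C_card p (by omega)
  · intro p hp q hq r hr
    by_cases h : p = N
    · subst h
      rw [hC1] at hq hr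
      exact hCl q r (hDlt q hq) (hDlt r hr) (hDcl q hq r hr)
    · rw [hC2 p h] at hq hr
      have hp' : p < N := by omega
      have h1 := hI.C_lt p hp' q hq
      have h2 := hI.C_lt p hp' r hr
      exact hCl q r (by omega) (by omega) (hI.C_cl p hp' q hq r hr)
  · -- adj
    intro u hu v hv e
    by_cases hY : u ∈ Y
    · by_cases hY' : v ∈ Y
      · rw [hp1 u hY, hp1 v hY']; exact Or.inl rfl
      · have hvU := hv.resolve_right hY'
        rw [hp1 u hY, hp2 v hY']
        refine Or.inr (Or.inr ?_)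
        rw [hC1]
        exact hDmem v (hnb u hY v hvU e)
    · have huU := hu.resolve_right hY
      by_cases hY' : v ∈ Y
      · rw [hp2 u hY, hp1 v hY']
        refine Or.inr (Or.inl ?_)
        rw [hC1]
        exact hDmem u (hnb v hY' u huU e.symm)
      · have hvU := hv.resolve_right hY'
        rw [hp2 u hY, hp2 v hY']
        exact hCl _ _ (hI.part_lt u huU) (hI.part_lt v hvU) (hI.adj u huU v hvU e)
  · -- reg
    intro Om2 h2
    have hsub : Om2 ⊆ Uᶜ := fun v hv hU => h2.1 hv (Or.inl hU)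
    have hsubY : ∀ v ∈ Om2, v ∉ Y := fun v hv hY => h2.1 hv (Or.inr hY)
    by_cases hm : (Om2 ∩ Om).Nonempty
    · have hin : Om2 ⊆ Om := hOm.sub_of_con h2.2.1 hsub hm
      have hc : IsComp G (Om \ Y) Om2 := by
        refine ⟨fun v hv => ⟨hin hv, hsubY v hv⟩, h2.2.1, ?_⟩
        intro u hu v hv e
        refine h2.2.2 u hu v ?_ e
        rintro (hU | hY)
        · exact hOm.1 hv.1 hU
        · exact hv.2 hY
      refine ⟨hReg Om2 hc, F', ?_, ?_⟩
      · rintro z ⟨hz, u, hu, e⟩
        by_cases hzO : z ∈ Om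
        · by_cases hzY : z ∈ Y
          · exact (hl1 z hzY).symm
          · exact absurd (hc.2.2 u hu z ⟨hzO, hzY⟩ e) hz
        · exact hlF z ⟨hzO, u, hin hu, e⟩
      · intro u hu v e
        exact hLip u (hin hu) v e
    · have hcomp : IsComp G Uᶜ Om2 := by
        refine ⟨hsub, h2.2.1, ?_⟩
        intro u hu v hv e
        refine h2.2.2 u hu v ?_ e
        rintro (hU | hY)
        · exact hv hU
        · have : u ∈ Om := hOm.2.2 v (hYO hY) u (hsub hu) e.symm
          exact hm ⟨u, hu, this⟩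
      obtain ⟨hR, F, hF, hFL⟩ := hI.reg Om2 hcomp
      have hnb2 : ∀ z ∈ Nb G Om2, z ∈ U := by
        rintro z ⟨hz, u, hu, e⟩
        by_contra hzU
        exact hz (hcomp.2.2 u hu z hzU e)
      have hpz : ∀ z ∈ Nb G Om2, part' z = part z := fun z hz => hp2 z (hUY z (hnb2 z hz))
      refine ⟨?_, F, ?_, hFL⟩
      · rcases hR with ⟨x, hx, h3, h4⟩ | ⟨Z₀, Z₁, x₀, x₁, a1, a2, a3, a4, a5, a6, a7, a8, a9, a10⟩ |
          ⟨Z, x, a1, a2, a3, a4, a5, a6, a7⟩
        · refine Or.inl ⟨x, by omega, h3, ?_⟩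
          intro z hz
          rw [hpz z hz]; exact h4 z hz
        · refine Or.inr (Or.inl ⟨Z₀, Z₁, x₀, x₁, a1, a2, a3, a4, a5, by omega, by omega,
            hCl _ _ a6 a7 a8, ?_, ?_⟩)
          · intro z hz hz0
            rw [hpz z hz]; exact a9 z hz hz0
          · intro z hz hz0
            rw [hpz z hz]; exact a10 z hz hz0
        · refine Or.inr (Or.inr ⟨Z, x, a1, a2, a3, a4, ?_, ?_, ?_⟩)
          · intro i
            have := a5 i
            omega
          · intro i j
            exact hCl _ _ (a5 i) (a5 j) (a6 i j)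
          · intro i z hz hzi
            rw [hpz z hz]; exact a7 i z hz hzi
      · intro z hz
        rw [hl2 z (hUY z (hnb2 z hz))]
        exact hF z hz

end Pool.Agent.W881.PS.Adv
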